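import Pool.Agent.Helper4.TK.StD

/-!
# Project TK, module Lw1: normal forms of the matrices of determinant three
-/

set_option autoImplicit false

namespace Pool.Agent.Helper53.TK

open Pool.Agent.Helper14.W5
open Pool.Agent.Helper4.TK

/-! ### Identities in a ring -/

private theorem ring3 {R : Type*} [Ring R] (A O X : R) :
    A * (1 + O) - 1 - (X + O) = (A - 1 - X) * (1 + O) + X * O := by
  noncomm_ring

private theorem ring4 {R : Type*} [Ring R] (A B D : R) :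
    B * D * A - 1 = (B - 1) * (D * A) + ((D - 1) * A + (A - 1)) := by
  noncomm_ring

private theorem ring5 {R : Type*} [Ring R] (A B D X Y : R) :
    B * D * A - 1 - X - Y = B * (D - 1) * A + ((B - 1 - Y) * A + (1 + Y) * (A - 1 - X) + Y * X) := by
  noncomm_ring

private theorem alg1 {R : Type*} [Ring R] [Algebra (ZMod 5) R] (P W X : R) (c d : ZMod 5) :
    P * X * W - (d * c) • (W * (P * X)) =
      P * (X * W - c • (W * X)) + c • ((P * W - d • (W * P)) * X) := by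
  simp only [mul_sub, sub_mul, smul_sub, mul_smul_comm, smul_mul_assoc, mul_assoc, smul_smul]
  rw [mul_comm c d]
  abel

private theorem alg2 {R : Type*} [Ring R] [Algebra (ZMod 5) R] (O W X : R) (c d : ZMod 5)
    (h : c * d = 1) :
    O * X - c • (X * O) = (-c) • (X * W - d • (W * X)) + ((O - W) * X - c • (X * (O - W))) := by
  simp only [mul_sub, sub_mul, smul_sub, smul_smul, neg_mul, h, neg_smul, one_smul]
  abel

private theorem alg3 {R : Type*} [Ring R] [Algebra (ZMod 5) R] (P Q W : R) (c d : ZMod 5) :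
    P * Q * W - (c * d) • (W * (P * Q)) =
      P * (Q * W - d • (W * Q)) + d • ((P * W - c • (W * P)) * Q) := by
  simp only [mul_sub, sub_mul, smul_sub, mul_smul_comm, smul_mul_assoc, mul_assoc, smul_smul]
  rw [mul_comm c d]
  abel

section

variable {r s : ℕ}

private theorem neg1_smul (O : Module.End (ZMod 5) (Fn5 (5 ^ r) (5 ^ s))) :
    (-1 : ZMod 5) • O = -O := by
  apply LinearMap.ext
  intro F
  funext x y
  change (-1 : ZMod 5) * (O F x y) = -(O F x y)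
  ring

private theorem lw_neg (hL : S5Low0) {O : Module.End (ZMod 5) (Fn5 (5 ^ r) (5 ^ s))} {k : ℤ}
    (h : Lw O k) : Lw (-O) k := by
  have := (hL r s).2.2.1 O (-1) k h
  rwa [neg1_smul] at this

private theorem lw_add (hL : S5Low0) {O O' : Module.End (ZMod 5) (Fn5 (5 ^ r) (5 ^ s))} {k : ℤ}
    (h : Lw O k) (h' : Lw O' k) : Lw (O + O') k := (hL r s).2.1 O O' k h h'

private theorem lw_sub (hL : S5Low0) {O O' : Module.End (ZMod 5) (Fn5 (5 ^ r) (5 ^ s))} {k : ℤ}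
    (h : Lw O k) (h' : Lw O' k) : Lw (O - O') k := by
  rw [sub_eq_add_neg]
  exact lw_add hL h (lw_neg hL h')

private theorem lw_mul (hL : S5Low0) {O O' : Module.End (ZMod 5) (Fn5 (5 ^ r) (5 ^ s))}
    {k k' l : ℤ} (h : Lw O k) (h' : Lw O' k') (hl : k + k' = l) : Lw (O * O') l := by
  subst hl
  exact (hL r s).1 O O' k k' h h'

private theorem lw_mono (hL : S5Low0) {O : Module.End (ZMod 5) (Fn5 (5 ^ r) (5 ^ s))}
    {k k' : ℤ} (h : Lw O k) (hk : k' ≤ k) : Lw O k' := (hL r s).2.2.2.1 O k k' hk h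

private theorem lw_smul (hL : S5Low0) {O : Module.End (ZMod 5) (Fn5 (5 ^ r) (5 ^ s))} {k : ℤ}
    (c : ZMod 5) (h : Lw O k) : Lw (c • O) k := (hL r s).2.2.1 O c k h

private theorem lw_one (hL : S5Low0) :
    Lw (1 : Module.End (ZMod 5) (Fn5 (5 ^ r) (5 ^ s))) 0 := (hL r s).2.2.2.2.2.1

private theorem lw_dX (hL : S5Low0) :
    Lw (dX : Module.End (ZMod 5) (Fn5 (5 ^ r) (5 ^ s))) 1 := (hL r s).2.2.2.2.2.2.1

private theorem lw_dY (hL : S5Low0) :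
    Lw (dY : Module.End (ZMod 5) (Fn5 (5 ^ r) (5 ^ s))) 1 := (hL r s).2.2.2.2.2.2.2.1

private theorem lw_pow (hL : S5Low0) {O : Module.End (ZMod 5) (Fn5 (5 ^ r) (5 ^ s))}
    (h : Lw O 0) (n : ℕ) : Lw (O ^ n) 0 := by
  induction n with
  | zero => rw [pow_zero]; exact lw_one hL
  | succ n ih => rw [pow_succ]; exact lw_mul hL ih h (by norm_num)

private theorem lw_one_add (hL : S5Low0) {O : Module.End (ZMod 5) (Fn5 (5 ^ r) (5 ^ s))}
    (h : Lw O 1) : Lw (1 + O) 0 := lw_add hL (lw_one hL) (lw_mono hL h (by norm_num))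

/-- (1 + O)^n = 1 + n O up to lowering 2. -/
private theorem lw_binom (hL : S5Low0) {O : Module.End (ZMod 5) (Fn5 (5 ^ r) (5 ^ s))}
    (h : Lw O 1) (n : ℕ) : Lw ((1 + O) ^ n - 1 - (n : ZMod 5) • O) 2 := by
  induction n with
  | zero =>
    have e : (1 + O) ^ 0 - 1 - ((0 : ℕ) : ZMod 5) • O = 0 := by
      rw [pow_zero, Nat.cast_zero, zero_smul, sub_self, sub_zero]
    rw [e]
    have := lw_smul hL (0 : ZMod 5) (lw_mul hL h h (by norm_num : (1 : ℤ) + 1 = 2))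
    rwa [zero_smul] at this
  | succ n ih =>
    have e : ((n + 1 : ℕ) : ZMod 5) • O = (n : ZMod 5) • O + O := by
      rw [Nat.cast_add, Nat.cast_one, add_smul, one_smul]
    rw [pow_succ, e, ring3]
    exact lw_add hL (lw_mul hL ih (lw_one_add hL h) (by norm_num))
      (lw_mul hL (lw_smul hL _ h) h (by norm_num))

/-- Powers of an operator which is `1` up to lowering `k ≥ 0`. -/
private theorem lw_powk (hL : S5Low0) {O : Module.End (ZMod 5) (Fn5 (5 ^ r) (5 ^ s))} {k : ℤ}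
    (hk : 0 ≤ k) (h : Lw (O - 1) k) (n : ℕ) : Lw (O ^ n - 1) k ∧ Lw (O ^ n) 0 := by
  have h0 : Lw O 0 := by
    have := lw_add hL (lw_mono hL h hk) (lw_one hL)
    rwa [sub_add_cancel] at this
  refine ⟨?_, lw_pow hL h0 n⟩
  induction n with
  | zero =>
    rw [pow_zero, sub_self]
    have := lw_smul hL (0 : ZMod 5) h
    rwa [zero_smul] at this
  | succ n ih =>
    have e : O ^ (n + 1) - 1 = (O ^ n - 1) * O + (O - 1) := by
      rw [pow_succ, sub_mul, one_mul, sub_add_sub_cancel]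
    rw [e]
    exact lw_add hL (lw_mul hL ih h0 (by norm_num)) h

private theorem oW_zero : (oW 0 : Module.End (ZMod 5) (Fn5 (5 ^ r) (5 ^ s))) = 1 := by
  apply LinearMap.ext
  intro F
  funext x y
  change F ((((0 : ℤ) : ZMod (5 ^ r)) + ((1 : ℤ) : ZMod (5 ^ r)) * x) *
    (((1 : ℤ) : ZMod (5 ^ r)) + 5 * ((0 : ℤ) : ZMod (5 ^ r)) * x)⁻¹)
    ((((0 : ℤ) : ZMod (5 ^ s)) + ((1 : ℤ) : ZMod (5 ^ s)) * y) *
    (((1 : ℤ) : ZMod (5 ^ s)) + 5 * ((0 : ℤ) : ZMod (5 ^ s)) * y)⁻¹) = F x y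
  have e1 : (((1 : ℤ) : ZMod (5 ^ r)) + 5 * ((0 : ℤ) : ZMod (5 ^ r)) * x)⁻¹ = 1 := by
    rw [Int.cast_zero, mul_zero, zero_mul, add_zero, Int.cast_one, ZMod.inv_one]
  have e2 : (((1 : ℤ) : ZMod (5 ^ s)) + 5 * ((0 : ℤ) : ZMod (5 ^ s)) * y)⁻¹ = 1 := by
    rw [Int.cast_zero, mul_zero, zero_mul, add_zero, Int.cast_one, ZMod.inv_one]
  rw [e1, e2]
  congr 1
  · rw [Int.cast_zero, Int.cast_one]; ring
  · rw [Int.cast_zero, Int.cast_one]; ring

private theorem wd_mono (hL : S5Low0) {d d' : ℤ} (h : d ≤ d') {F : Fn5 (5 ^ r) (5 ^ s)}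
    (hF : F ∈ Wd5 d) : F ∈ Wd5 d' := (hL r s).2.2.2.2.1 d d' h hF


/-- An operator agrees with `oW w` up to lowering `1`. -/
private theorem near (hL : S5Low0) (hn : S5Nfa) (hf : S5Nf) (a b c d : ℤ) (w : Fin 4)
    (β γ m : ℕ)
    (ha : ¬ 5 ∣ a) (hd : ¬ 5 ∣ d) (h1 : 25 ∣ b - β * a) (h2 : 25 ∣ c - γ * om4 w * a)
    (h3 : 25 ∣ d - (5 * γ * β + 6 ^ m) * om4 w * a) :
    Lw (op5 a b c d - oW w : Module.End (ZMod 5) (Fn5 (5 ^ r) (5 ^ s))) 1 := by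
  obtain ⟨nW, -, -, nD, -, -, nA, nB⟩ := hn r s
  have h7 := hf r s a b c d w β γ m ha hd h1 h2 h3
  obtain ⟨bB, -⟩ := lw_powk hL (by norm_num) nB γ
  obtain ⟨bD, cD⟩ := lw_powk hL (by norm_num) nD m
  obtain ⟨bA, cA⟩ := lw_powk hL (by norm_num) nA β
  have hR : Lw (oB ^ γ * oD ^ m * oA ^ β - 1 : Module.End (ZMod 5) (Fn5 (5 ^ r) (5 ^ s))) 1 := by
    rw [ring4]
    refine lw_add hL (lw_mul hL bB (lw_mul hL cD cA (by norm_num : (0 : ℤ) + 0 = 0))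
      (by norm_num)) (lw_add hL ?_ bA)
    exact lw_mono hL (lw_mul hL bD cA (by norm_num : (4 : ℤ) + 0 = 4)) (by norm_num)
  have e : (op5 a b c d - oW w : Module.End (ZMod 5) (Fn5 (5 ^ r) (5 ^ s))) =
      (op5 a b c d - oW w * oB ^ γ * oD ^ m * oA ^ β) +
        oW w * (oB ^ γ * oD ^ m * oA ^ β - 1) := by
    rw [mul_sub, mul_one]
    simp only [mul_assoc]
    abel
  rw [e]
  exact lw_add hL (lw_mono hL h7 (by norm_num)) (lw_mul hL (nW w) hR (by norm_num))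

private theorem even_step {a b c d' : ℤ} (hn : S5Nfa)
    (h : Lw (op5 a b c d' - oW 2 : Module.End (ZMod 5) (Fn5 (5 ^ r) (5 ^ s))) 1) (d : ℤ)
    (F : Fn5 (5 ^ r) (5 ^ s)) (hF : F ∈ Wd5 d) (hd : Even d) :
    op5 a b c d' F - F ∈ Wd5 (d - 1) := by
  have h1 := h d F hF
  have h2 := (hn r s).2.1 d F hF hd
  have h3 := Submodule.add_mem _ h1 h2
  rw [LinearMap.sub_apply, sub_add_sub_cancel] at h3
  exact h3

private theorem odd_step {a b c d' : ℤ} (hn : S5Nfa)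
    (h : Lw (op5 a b c d' - oW 2 : Module.End (ZMod 5) (Fn5 (5 ^ r) (5 ^ s))) 1) (d : ℤ)
    (F : Fn5 (5 ^ r) (5 ^ s)) (hF : F ∈ Wd5 d) (hd : Odd d) :
    op5 a b c d' F + F ∈ Wd5 (d - 1) := by
  have h1 := h d F hF
  have h2 := (hn r s).2.2.1 d F hF hd
  have h3 := Submodule.add_mem _ h1 h2
  rw [LinearMap.sub_apply, ← add_assoc, sub_add_cancel] at h3
  exact h3

/-! ### The operator `oW 1` and the differences -/

private theorem shX (n : ℕ) (F : Fn5 (5 ^ r) (5 ^ s)) (x : ZMod (5 ^ r)) (y : ZMod (5 ^ s)) :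
    ((1 + dX : Module.End (ZMod 5) (Fn5 (5 ^ r) (5 ^ s))) ^ n) F x y = F (x + n) y := by
  induction n generalizing x with
  | zero => simp
  | succ n ih =>
    rw [pow_succ']
    change (((1 + dX : Module.End (ZMod 5) (Fn5 (5 ^ r) (5 ^ s))) ^ n) F) x y +
      ((((1 + dX : Module.End (ZMod 5) (Fn5 (5 ^ r) (5 ^ s))) ^ n) F) (x + 1) y -
        (((1 + dX : Module.End (ZMod 5) (Fn5 (5 ^ r) (5 ^ s))) ^ n) F) x y) = _
    rw [ih, ih, add_sub_cancel, Nat.cast_succ]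
    congr 1
    ring

private theorem shY (n : ℕ) (F : Fn5 (5 ^ r) (5 ^ s)) (x : ZMod (5 ^ r)) (y : ZMod (5 ^ s)) :
    ((1 + dY : Module.End (ZMod 5) (Fn5 (5 ^ r) (5 ^ s))) ^ n) F x y = F x (y + n) := by
  induction n generalizing y with
  | zero => simp
  | succ n ih =>
    rw [pow_succ']
    change (((1 + dY : Module.End (ZMod 5) (Fn5 (5 ^ r) (5 ^ s))) ^ n) F) x y +
      ((((1 + dY : Module.End (ZMod 5) (Fn5 (5 ^ r) (5 ^ s))) ^ n) F) x (y + 1) -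
        (((1 + dY : Module.End (ZMod 5) (Fn5 (5 ^ r) (5 ^ s))) ^ n) F) x y) = _
    rw [ih, ih, add_sub_cancel, Nat.cast_succ]
    congr 1
    ring

private theorem oW_one (F : Fn5 (5 ^ r) (5 ^ s)) (x : ZMod (5 ^ r)) (y : ZMod (5 ^ s)) :
    (oW 1 : Module.End (ZMod 5) (Fn5 (5 ^ r) (5 ^ s))) F x y = F (7 * x) (y * (7 : ZMod (5 ^ s))⁻¹) := by
  change F ((((0 : ℤ) : ZMod (5 ^ r)) + ((7 : ℤ) : ZMod (5 ^ r)) * x) *
    (((1 : ℤ) : ZMod (5 ^ r)) + 5 * ((0 : ℤ) : ZMod (5 ^ r)) * x)⁻¹)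
    ((((0 : ℤ) : ZMod (5 ^ s)) + ((1 : ℤ) : ZMod (5 ^ s)) * y) *
    (((7 : ℤ) : ZMod (5 ^ s)) + 5 * ((0 : ℤ) : ZMod (5 ^ s)) * y)⁻¹) = _
  have e1 : (((1 : ℤ) : ZMod (5 ^ r)) + 5 * ((0 : ℤ) : ZMod (5 ^ r)) * x)⁻¹ = 1 := by
    rw [Int.cast_zero, mul_zero, zero_mul, add_zero, Int.cast_one, ZMod.inv_one]
  have e2 : (((7 : ℤ) : ZMod (5 ^ s)) + 5 * ((0 : ℤ) : ZMod (5 ^ s)) * y) = 7 := by
    rw [Int.cast_zero, mul_zero, zero_mul, add_zero]
    norm_num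
  rw [e1, e2]
  congr 1
  · push_cast; ring
  · push_cast; ring

private theorem commX : (dX * oW 1 : Module.End (ZMod 5) (Fn5 (5 ^ r) (5 ^ s))) =
    oW 1 * ((1 + dX) ^ 7 - 1) := by
  apply LinearMap.ext
  intro F
  funext x y
  change (oW 1 : Module.End (ZMod 5) (Fn5 (5 ^ r) (5 ^ s))) F (x + 1) y -
    (oW 1 : Module.End (ZMod 5) (Fn5 (5 ^ r) (5 ^ s))) F x y =
    (oW 1 : Module.End (ZMod 5) (Fn5 (5 ^ r) (5 ^ s)))
      ((((1 + dX : Module.End (ZMod 5) (Fn5 (5 ^ r) (5 ^ s))) ^ 7) F) - F) x y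
  rw [oW_one, oW_one, oW_one]
  change _ = (((1 + dX : Module.End (ZMod 5) (Fn5 (5 ^ r) (5 ^ s))) ^ 7) F) _ _ - F _ _
  rw [shX]
  congr 2
  push_cast
  ring

private theorem ex_inv (s : ℕ) : ∃ u : ℕ, (u : ZMod (5 ^ s)) = (7 : ZMod (5 ^ s))⁻¹ ∧
    (u : ZMod 5) = 3 := by
  have hc : Nat.Coprime 7 (5 ^ (s + 1)) := Nat.Coprime.pow_right _ (by norm_num)
  have h1 : 1 < 5 ^ (s + 1) := Nat.one_lt_pow (by omega) (by norm_num)
  obtain ⟨u, -, hu⟩ := Nat.exists_mul_mod_eq_one_of_coprime hc h1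
  have hd : 7 * u = 1 + 5 ^ (s + 1) * (7 * u / 5 ^ (s + 1)) := by
    have := Nat.mod_add_div (7 * u) (5 ^ (s + 1))
    rw [hu] at this
    exact this.symm
  set k := 7 * u / 5 ^ (s + 1) with hk
  refine ⟨u, ?_, ?_⟩
  · have e : ((7 : ZMod (5 ^ s)) * u) = 1 := by
      have := congrArg (fun n : ℕ => (n : ZMod (5 ^ s))) hd
      push_cast at this
      have h5 : ((5 : ZMod (5 ^ s)) ^ s) = 0 := by
        have h5 := ZMod.natCast_self (5 ^ s)
        push_cast at h5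
        exact h5
      rw [pow_succ, h5] at this
      rw [this]
      ring
    have hcop : Nat.Coprime 7 (5 ^ s) := Nat.Coprime.pow_right _ (by norm_num)
    have e7 : ((7 : ℕ) : ZMod (5 ^ s)) * ((7 : ℕ) : ZMod (5 ^ s))⁻¹ = 1 :=
      ZMod.coe_mul_inv_eq_one 7 hcop
    push_cast at e7
    calc (u : ZMod (5 ^ s)) = (7 * (7 : ZMod (5 ^ s))⁻¹) * u := by rw [e7, one_mul]
      _ = (7 : ZMod (5 ^ s))⁻¹ * (7 * u) := by ring
      _ = _ := by rw [e, mul_one]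
  · have e : ((7 : ZMod 5) * u) = 1 := by
      have := congrArg (fun n : ℕ => (n : ZMod 5)) hd
      push_cast at this
      have h5 : (5 : ZMod 5) = 0 := by decide
      rw [pow_succ, h5] at this
      rw [this]
      ring
    have h3 : (3 : ZMod 5) * 7 = 1 := by decide
    calc (u : ZMod 5) = (3 * 7) * u := by rw [h3, one_mul]
      _ = 3 * (7 * u) := by ring
      _ = 3 := by rw [e, mul_one]

private theorem commY (u : ℕ) (hu : (u : ZMod (5 ^ s)) = (7 : ZMod (5 ^ s))⁻¹) :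
    (dY * oW 1 : Module.End (ZMod 5) (Fn5 (5 ^ r) (5 ^ s))) = oW 1 * ((1 + dY) ^ u - 1) := by
  apply LinearMap.ext
  intro F
  funext x y
  change (oW 1 : Module.End (ZMod 5) (Fn5 (5 ^ r) (5 ^ s))) F x (y + 1) -
    (oW 1 : Module.End (ZMod 5) (Fn5 (5 ^ r) (5 ^ s))) F x y =
    (oW 1 : Module.End (ZMod 5) (Fn5 (5 ^ r) (5 ^ s)))
      ((((1 + dY : Module.End (ZMod 5) (Fn5 (5 ^ r) (5 ^ s))) ^ u) F) - F) x y
  rw [oW_one, oW_one, oW_one]
  change _ = (((1 + dY : Module.End (ZMod 5) (Fn5 (5 ^ r) (5 ^ s))) ^ u) F) _ _ - F _ _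
  rw [shY, hu]
  congr 2
  ring

private theorem cX (hL : S5Low0) (hn : S5Nfa) :
    Lw (dX * oW 1 - (2 : ZMod 5) • (oW 1 * dX) : Module.End (ZMod 5) (Fn5 (5 ^ r) (5 ^ s))) 2 := by
  have b := lw_binom hL (lw_dX hL : Lw (dX : Module.End (ZMod 5) (Fn5 (5 ^ r) (5 ^ s))) 1) 7
  have e7 : ((7 : ℕ) : ZMod 5) = 2 := by decide
  rw [e7] at b
  have e : (dX * oW 1 - (2 : ZMod 5) • (oW 1 * dX) : Module.End (ZMod 5) (Fn5 (5 ^ r) (5 ^ s))) =
      oW 1 * ((1 + dX) ^ 7 - 1 - (2 : ZMod 5) • dX) := by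
    rw [commX, mul_sub (oW 1) _ ((2 : ZMod 5) • dX), mul_smul_comm]
  rw [e]
  exact lw_mul hL ((hn r s).1 1) b (by norm_num)

private theorem cY (hL : S5Low0) (hn : S5Nfa) :
    Lw (dY * oW 1 - (3 : ZMod 5) • (oW 1 * dY) : Module.End (ZMod 5) (Fn5 (5 ^ r) (5 ^ s))) 2 := by
  obtain ⟨u, hu, hu3⟩ := ex_inv s
  have b := lw_binom hL (lw_dY hL : Lw (dY : Module.End (ZMod 5) (Fn5 (5 ^ r) (5 ^ s))) 1) u
  rw [hu3] at b
  have e : (dY * oW 1 - (3 : ZMod 5) • (oW 1 * dY) : Module.End (ZMod 5) (Fn5 (5 ^ r) (5 ^ s))) =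
      oW 1 * ((1 + dY) ^ u - 1 - (3 : ZMod 5) • dY) := by
    rw [commY u hu, mul_sub (oW 1) _ ((3 : ZMod 5) • dY), mul_smul_comm]
  rw [e]
  exact lw_mul hL ((hn r s).1 1) b (by norm_num)

private theorem lw_zero (k : ℤ) :
    Lw (0 : Module.End (ZMod 5) (Fn5 (5 ^ r) (5 ^ s))) k := by
  intro d F _
  rw [LinearMap.zero_apply]
  exact Submodule.zero_mem _

private theorem lw_pown (hL : S5Low0) {O : Module.End (ZMod 5) (Fn5 (5 ^ r) (5 ^ s))}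
    (h : Lw O 1) (n : ℕ) : Lw (O ^ n) (n : ℤ) := by
  induction n with
  | zero => rw [pow_zero]; exact lw_one hL
  | succ n ih => rw [pow_succ]; exact lw_mul hL ih h (by push_cast; ring)

private theorem powC (hL : S5Low0) {W X : Module.End (ZMod 5) (Fn5 (5 ^ r) (5 ^ s))} {c : ZMod 5}
    (hX : Lw X 1) (h : Lw (X * W - c • (W * X)) 2) (n : ℕ) :
    Lw (X ^ n * W - c ^ n • (W * X ^ n)) ((n : ℤ) + 1) := by
  induction n with
  | zero =>
    have e : (X ^ 0 * W - c ^ 0 • (W * X ^ 0)) = 0 := by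
      rw [pow_zero, pow_zero, one_smul, one_mul, mul_one, sub_self]
    rw [e]
    exact lw_zero _
  | succ n ih =>
    rw [pow_succ, pow_succ, alg1]
    refine lw_add hL (lw_mul hL (lw_pown hL hX n) h (by push_cast; ring)) (lw_smul hL _ ?_)
    exact lw_mul hL ih hX (by push_cast; ring)

private theorem key (hL : S5Low0) (hn : S5Nfa) (d : ℤ) (F : Fn5 (5 ^ r) (5 ^ s)) (hF : F ∈ Wd5 d)
    (i j : ℕ) (hd : d = (i : ℤ) + j) :
    (dX ^ i * dY ^ j * oW 1 : Module.End (ZMod 5) (Fn5 (5 ^ r) (5 ^ s))) F =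
      (2 ^ i * 3 ^ j : ZMod 5) •
        (oW 1 * (dX ^ i * dY ^ j) : Module.End (ZMod 5) (Fn5 (5 ^ r) (5 ^ s))) F := by
  have h1 := powC hL (lw_dX hL) (cX hL hn (r := r) (s := s)) i
  have h2 := powC hL (lw_dY hL) (cY hL hn (r := r) (s := s)) j
  have h3 : Lw (dX ^ i * dY ^ j * oW 1 - (2 ^ i * 3 ^ j : ZMod 5) • (oW 1 * (dX ^ i * dY ^ j)) :
      Module.End (ZMod 5) (Fn5 (5 ^ r) (5 ^ s))) ((i : ℤ) + j + 1) := by
    rw [alg3]
    refine lw_add hL (lw_mul hL (lw_pown hL (lw_dX hL) i) h2 (by ring)) (lw_smul hL _ ?_)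
    exact lw_mul hL h1 (lw_pown hL (lw_dY hL) j) (by ring)
  have h4 := h3 d F hF
  have e : d - ((i : ℤ) + j + 1) = -1 := by rw [hd]; ring
  rw [e] at h4
  have h5 := (hL r s).2.2.2.2.2.2.2.2.2.2.2.2.2 _ h4
  rw [LinearMap.sub_apply, LinearMap.smul_apply] at h5
  exact sub_eq_zero.mp h5

private theorem bbY (hb : S5Bb) (n i j : ℕ) (hi : i < 5 ^ r) (hj : j < 5 ^ s) :
    (dY ^ n : Module.End (ZMod 5) (Fn5 (5 ^ r) (5 ^ s))) (bb5 i j) =
      if n ≤ j then bb5 i (j - n) else 0 := by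
  obtain ⟨-, -, b3, -, b5, -⟩ := hb r s
  induction n with
  | zero => simp
  | succ n ih =>
    rw [pow_succ']
    change dY ((dY ^ n : Module.End (ZMod 5) (Fn5 (5 ^ r) (5 ^ s))) (bb5 i j)) = _
    rw [ih]
    rcases lt_trichotomy n j with h | h | h
    · rw [if_pos h.le, if_pos (by omega)]
      have e : j - n = (j - (n + 1)) + 1 := by omega
      rw [e]
      exact b3 i (j - (n + 1)) hi (by omega)
    · subst h
      rw [if_pos le_rfl, if_neg (by omega), Nat.sub_self]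
      exact b5 i hi
    · rw [if_neg (by omega), if_neg (by omega), map_zero]

private theorem bbX (hb : S5Bb) (n i j : ℕ) (hi : i < 5 ^ r) (hj : j < 5 ^ s) :
    (dX ^ n : Module.End (ZMod 5) (Fn5 (5 ^ r) (5 ^ s))) (bb5 i j) =
      if n ≤ i then bb5 (i - n) j else 0 := by
  obtain ⟨-, b2, -, b4, -, -⟩ := hb r s
  induction n with
  | zero => simp
  | succ n ih =>
    rw [pow_succ']
    change dX ((dX ^ n : Module.End (ZMod 5) (Fn5 (5 ^ r) (5 ^ s))) (bb5 i j)) = _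
    rw [ih]
    rcases lt_trichotomy n i with h | h | h
    · rw [if_pos h.le, if_pos (by omega)]
      have e : i - n = (i - (n + 1)) + 1 := by omega
      rw [e]
      exact b2 (i - (n + 1)) j (by omega) hj
    · subst h
      rw [if_pos le_rfl, if_neg (by omega), Nat.sub_self]
      exact b4 j hj
    · rw [if_neg (by omega), if_neg (by omega), map_zero]

private theorem bbXY (hb : S5Bb) (i j i' j' : ℕ) (hi : i < 5 ^ r) (hj : j < 5 ^ s)
    (h : i' + j' = i + j) :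
    (dX ^ i' * dY ^ j' : Module.End (ZMod 5) (Fn5 (5 ^ r) (5 ^ s))) (bb5 i j) =
      if i' = i ∧ j' = j then bb5 0 0 else 0 := by
  change (dX ^ i' : Module.End (ZMod 5) (Fn5 (5 ^ r) (5 ^ s)))
    ((dY ^ j' : Module.End (ZMod 5) (Fn5 (5 ^ r) (5 ^ s))) (bb5 i j)) = _
  rw [bbY hb j' i j hi hj]
  by_cases h1 : j' ≤ j
  · rw [if_pos h1, bbX hb i' i (j - j') hi (by omega)]
    by_cases h2 : j' = j
    · have h3 : i' = i := by omega
      subst h2 h3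
      rw [if_pos le_rfl, if_pos ⟨rfl, rfl⟩, Nat.sub_self, Nat.sub_self]
    · rw [if_neg (by omega), if_neg (fun h3 => h2 h3.2)]
  · rw [if_neg h1, map_zero, if_neg (fun h3 => h1 h3.2.le)]

private theorem bb00 : (oW 1 : Module.End (ZMod 5) (Fn5 (5 ^ r) (5 ^ s))) (bb5 0 0) = bb5 0 0 := by
  funext x y
  rw [oW_one]
  simp [bb5]

private theorem lead (hL : S5Low0) (hn : S5Nfa) (hb : S5Bb) (i j : ℕ) (hi : i < 5 ^ r)
    (hj : j < 5 ^ s) :
    (oW 1 : Module.End (ZMod 5) (Fn5 (5 ^ r) (5 ^ s))) (bb5 i j) -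
      (2 : ZMod 5) ^ (i + 3 * j) • bb5 i j ∈ Wd5 ((i : ℤ) + j - 1) := by
  have hbb := (hb r s).1 i j hi hj
  have hW : (oW 1 : Module.End (ZMod 5) (Fn5 (5 ^ r) (5 ^ s))) (bb5 i j) ∈
      Wd5 ((i : ℤ) + j) := by
    have := (hn r s).1 1 _ _ hbb
    rwa [sub_zero] at this
  intro i' j' hij
  rcases lt_or_ge ((i : ℤ) + j) ((i' : ℤ) + j') with h | h
  · exact (Submodule.sub_mem _ hW (Submodule.smul_mem _ _ hbb)) i' j' h
  · have h1 : i' + j' = i + j := by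
      have : ((i' : ℤ) + j') = (i : ℤ) + j := by omega
      exact_mod_cast this
    rw [map_sub, map_smul]
    have h2 := key hL hn _ _ hbb i' j' (by exact_mod_cast h1.symm)
    have h3 : (dX ^ i' * dY ^ j' : Module.End (ZMod 5) (Fn5 (5 ^ r) (5 ^ s)))
        ((oW 1 : Module.End (ZMod 5) (Fn5 (5 ^ r) (5 ^ s))) (bb5 i j)) =
        (2 ^ i' * 3 ^ j' : ZMod 5) • (oW 1 : Module.End (ZMod 5) (Fn5 (5 ^ r) (5 ^ s)))
          ((dX ^ i' * dY ^ j' : Module.End (ZMod 5) (Fn5 (5 ^ r) (5 ^ s))) (bb5 i j)) := h2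
    rw [h3, bbXY hb i j i' j' hi hj h1]
    split_ifs with h4
    · obtain ⟨rfl, rfl⟩ := h4
      rw [bb00]
      have e : (2 ^ i' * 3 ^ j' : ZMod 5) = 2 ^ (i' + 3 * j') := by
        rw [pow_add, pow_mul]
        congr 2
      rw [e, sub_self]
    · rw [map_zero, smul_zero, smul_zero, sub_zero]

private theorem oW_two (F : Fn5 (5 ^ r) (5 ^ s)) (x : ZMod (5 ^ r)) (y : ZMod (5 ^ s)) :
    (oW 2 : Module.End (ZMod 5) (Fn5 (5 ^ r) (5 ^ s))) F x y = F (-x) (y * (-1 : ZMod (5 ^ s))⁻¹) := by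
  change F ((((0 : ℤ) : ZMod (5 ^ r)) + ((-1 : ℤ) : ZMod (5 ^ r)) * x) *
    (((1 : ℤ) : ZMod (5 ^ r)) + 5 * ((0 : ℤ) : ZMod (5 ^ r)) * x)⁻¹)
    ((((0 : ℤ) : ZMod (5 ^ s)) + ((1 : ℤ) : ZMod (5 ^ s)) * y) *
    (((-1 : ℤ) : ZMod (5 ^ s)) + 5 * ((0 : ℤ) : ZMod (5 ^ s)) * y)⁻¹) = _
  have e1 : (((1 : ℤ) : ZMod (5 ^ r)) + 5 * ((0 : ℤ) : ZMod (5 ^ r)) * x)⁻¹ = 1 := by
    rw [Int.cast_zero, mul_zero, zero_mul, add_zero, Int.cast_one, ZMod.inv_one]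
  have e2 : (((-1 : ℤ) : ZMod (5 ^ s)) + 5 * ((0 : ℤ) : ZMod (5 ^ s)) * y) = -1 := by
    rw [Int.cast_zero, mul_zero, zero_mul, add_zero]
    norm_num
  rw [e1, e2]
  congr 1
  · push_cast; ring
  · push_cast; ring

private theorem oW_three (F : Fn5 (5 ^ r) (5 ^ s)) (x : ZMod (5 ^ r)) (y : ZMod (5 ^ s)) :
    (oW 3 : Module.End (ZMod 5) (Fn5 (5 ^ r) (5 ^ s))) F x y = F (-7 * x) (y * (-7 : ZMod (5 ^ s))⁻¹) := by
  change F ((((0 : ℤ) : ZMod (5 ^ r)) + ((-7 : ℤ) : ZMod (5 ^ r)) * x) *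
    (((1 : ℤ) : ZMod (5 ^ r)) + 5 * ((0 : ℤ) : ZMod (5 ^ r)) * x)⁻¹)
    ((((0 : ℤ) : ZMod (5 ^ s)) + ((1 : ℤ) : ZMod (5 ^ s)) * y) *
    (((-7 : ℤ) : ZMod (5 ^ s)) + 5 * ((0 : ℤ) : ZMod (5 ^ s)) * y)⁻¹) = _
  have e1 : (((1 : ℤ) : ZMod (5 ^ r)) + 5 * ((0 : ℤ) : ZMod (5 ^ r)) * x)⁻¹ = 1 := by
    rw [Int.cast_zero, mul_zero, zero_mul, add_zero, Int.cast_one, ZMod.inv_one]
  have e2 : (((-7 : ℤ) : ZMod (5 ^ s)) + 5 * ((0 : ℤ) : ZMod (5 ^ s)) * y) = -7 := by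
    rw [Int.cast_zero, mul_zero, zero_mul, add_zero]
    norm_num
  rw [e1, e2]
  congr 1
  · push_cast; ring
  · push_cast; ring

private theorem inv7 (s : ℕ) :
    (-7 : ZMod (5 ^ s))⁻¹ = (-1 : ZMod (5 ^ s))⁻¹ * (7 : ZMod (5 ^ s))⁻¹ := by
  have h7 : IsUnit (7 : ZMod (5 ^ s)) := by
    have h : IsUnit (((7 : ℤ)) : ZMod (5 ^ s)) := by
      rw [ZMod.coe_int_isUnit_iff_isCoprime]
      push_cast
      exact IsCoprime.pow_left ⟨3, -2, by norm_num⟩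
    push_cast at h
    exact h
  have e1 := ZMod.mul_inv_of_unit _ h7.neg
  have e2 := ZMod.mul_inv_of_unit _ (isUnit_one.neg : IsUnit (-1 : ZMod (5 ^ s)))
  have e3 := ZMod.mul_inv_of_unit _ h7
  linear_combination ((-1 : ZMod (5 ^ s))⁻¹ * (7 : ZMod (5 ^ s))⁻¹) * e1 -
    (-7 : ZMod (5 ^ s))⁻¹ * e2 + ((-7 : ZMod (5 ^ s))⁻¹ * (-1 : ZMod (5 ^ s))⁻¹) * e3

private theorem comp3 : (oW 3 : Module.End (ZMod 5) (Fn5 (5 ^ r) (5 ^ s))) = oW 2 * oW 1 := by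
  apply LinearMap.ext
  intro F
  funext x y
  change _ = (oW 2 : Module.End (ZMod 5) (Fn5 (5 ^ r) (5 ^ s)))
    ((oW 1 : Module.End (ZMod 5) (Fn5 (5 ^ r) (5 ^ s))) F) x y
  rw [oW_three, oW_two, oW_one, inv7]
  congr 1
  · ring
  · ring

private theorem lead3 (hL : S5Low0) (hn : S5Nfa) (hb : S5Bb) (i j : ℕ) (hi : i < 5 ^ r)
    (hj : j < 5 ^ s) :
    (oW 3 : Module.End (ZMod 5) (Fn5 (5 ^ r) (5 ^ s))) (bb5 i j) -
      (3 : ZMod 5) ^ (i + 3 * j) • bb5 i j ∈ Wd5 ((i : ℤ) + j - 1) := by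
  have hbb := (hb r s).1 i j hi hj
  have hW : (oW 1 : Module.End (ZMod 5) (Fn5 (5 ^ r) (5 ^ s))) (bb5 i j) ∈
      Wd5 ((i : ℤ) + j) := by
    have := (hn r s).1 1 _ _ hbb
    rwa [sub_zero] at this
  have h1 := lead hL hn hb i j hi hj
  have e3 : (3 : ZMod 5) = -2 := by decide
  rw [comp3, e3]
  change (oW 2 : Module.End (ZMod 5) (Fn5 (5 ^ r) (5 ^ s)))
    ((oW 1 : Module.End (ZMod 5) (Fn5 (5 ^ r) (5 ^ s))) (bb5 i j)) - _ ∈ _
  rcases Nat.even_or_odd (i + j) with h | h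
  · have h2 := (hn r s).2.1 _ _ hW (by exact_mod_cast h)
    have h3 : Even (i + 3 * j) := by
      rw [Nat.even_iff] at h ⊢
      omega
    rw [h3.neg_pow]
    have h4 := Submodule.add_mem _ h2 h1
    rwa [sub_add_sub_cancel] at h4
  · have h2 := (hn r s).2.2.1 _ _ hW (by exact_mod_cast h)
    have h3 : Odd (i + 3 * j) := by
      rw [Nat.odd_iff] at h ⊢
      omega
    rw [h3.neg_pow, neg_smul, sub_neg_eq_add]
    have h4 := Submodule.sub_mem _ h2 h1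
    have h5 : (oW 2 : Module.End (ZMod 5) (Fn5 (5 ^ r) (5 ^ s)))
        ((oW 1 : Module.End (ZMod 5) (Fn5 (5 ^ r) (5 ^ s))) (bb5 i j)) +
          (2 : ZMod 5) ^ (i + 3 * j) • bb5 i j =
        (oW 2 : Module.End (ZMod 5) (Fn5 (5 ^ r) (5 ^ s)))
          ((oW 1 : Module.End (ZMod 5) (Fn5 (5 ^ r) (5 ^ s))) (bb5 i j)) +
          (oW 1 : Module.End (ZMod 5) (Fn5 (5 ^ r) (5 ^ s))) (bb5 i j) -
        ((oW 1 : Module.End (ZMod 5) (Fn5 (5 ^ r) (5 ^ s))) (bb5 i j) -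
          (2 : ZMod 5) ^ (i + 3 * j) • bb5 i j) := by
      abel
    rw [h5]
    exact h4

end

theorem hLw1 (hl : S5Low0) (hn : S5Nfa) (hf : S5Nf) (hb : S5Bb) : TLw1 := by
  intro r s
  have e3 : om4 3 = -7 := rfl
  have e2 : om4 2 = -1 := rfl
  have e1 : om4 1 = 7 := rfl
  have e0 : om4 0 = 1 := rfl
  have tβ : Lw (op5 9 (-2) 3 (-3) - oW 3 : Module.End (ZMod 5) (Fn5 (5 ^ r) (5 ^ s))) 1 :=
    near hl hn hf 9 (-2) 3 (-3) 3 22 19 3 (by norm_num) (by norm_num) (by norm_num)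
      (by rw [e3]; norm_num) (by rw [e3]; norm_num)
  have tα : Lw (op5 12 (-5) 3 (-6) - oW 1 : Module.End (ZMod 5) (Fn5 (5 ^ r) (5 ^ s))) 1 :=
    near hl hn hf 12 (-5) 3 (-6) 1 10 17 3 (by norm_num) (by norm_num) (by norm_num)
      (by rw [e1]; norm_num) (by rw [e1]; norm_num)
  have t2 : Lw (op5 17 (-4) 6 (-7) - oW 2 : Module.End (ZMod 5) (Fn5 (5 ^ r) (5 ^ s))) 1 :=
    near hl hn hf 17 (-4) 6 (-7) 2 13 7 3 (by norm_num) (by norm_num) (by norm_num)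
      (by rw [e2]; norm_num) (by rw [e2]; norm_num)
  obtain ⟨nW, -, -, nD, nA3, nB3, nA, nB⟩ := hn r s
  refine ⟨?_, ?_, ?_, ?_, ?_⟩
  · have h7 := hf r s 11 (-3) 3 (-4) 0 2 23 1 (by norm_num) (by norm_num) (by norm_num)
      (by rw [e0]; norm_num) (by rw [e0]; norm_num)
    rw [oW_zero, one_mul] at h7
    obtain ⟨bD, -⟩ := lw_powk hl (by norm_num) nD 1
    obtain ⟨-, cB⟩ := lw_powk hl (by norm_num) nB 23
    obtain ⟨-, cA⟩ := lw_powk hl (by norm_num) nA 2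
    have e23 : ((23 : ℕ) : ZMod 5) = 3 := by decide
    have e2' : ((2 : ℕ) : ZMod 5) = 2 := by decide
    have hB : Lw (oB ^ 23 - 1 - (3 : ZMod 5) • dY :
        Module.End (ZMod 5) (Fn5 (5 ^ r) (5 ^ s))) 2 := by
      have b1 := lw_binom hl nB 23
      have eB : (1 + (oB - 1) : Module.End (ZMod 5) (Fn5 (5 ^ r) (5 ^ s))) = oB := by abel
      rw [eB, e23] at b1
      have b2 := lw_add hl b1 (lw_smul hl (3 : ZMod 5) (lw_mono hl nB3 (by norm_num : (2 : ℤ) ≤ 3)))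
      have e : (oB ^ 23 - 1 - (3 : ZMod 5) • dY : Module.End (ZMod 5) (Fn5 (5 ^ r) (5 ^ s))) =
          oB ^ 23 - 1 - (3 : ZMod 5) • (oB - 1) + (3 : ZMod 5) • (oB - 1 - dY) := by
        rw [smul_sub (3 : ZMod 5) (oB - 1) dY]; abel
      rw [e]
      exact b2
    have hA : Lw (oA ^ 2 - 1 - (2 : ZMod 5) • dX :
        Module.End (ZMod 5) (Fn5 (5 ^ r) (5 ^ s))) 2 := by
      have b1 := lw_binom hl nA 2
      have eA : (1 + (oA - 1) : Module.End (ZMod 5) (Fn5 (5 ^ r) (5 ^ s))) = oA := by abel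
      rw [eA, e2'] at b1
      have b2 := lw_add hl b1 (lw_smul hl (2 : ZMod 5) (lw_mono hl nA3 (by norm_num : (2 : ℤ) ≤ 3)))
      have e : (oA ^ 2 - 1 - (2 : ZMod 5) • dX : Module.End (ZMod 5) (Fn5 (5 ^ r) (5 ^ s))) =
          oA ^ 2 - 1 - (2 : ZMod 5) • (oA - 1) + (2 : ZMod 5) • (oA - 1 - dX) := by
        rw [smul_sub (2 : ZMod 5) (oA - 1) dX]; abel
      rw [e]
      exact b2
    have hY : Lw (1 + (3 : ZMod 5) • dY : Module.End (ZMod 5) (Fn5 (5 ^ r) (5 ^ s))) 0 :=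
      lw_one_add hl (lw_smul hl _ (lw_dY hl))
    have e : (op5 11 (-3) 3 (-4) - 1 - (2 : ZMod 5) • dX - (3 : ZMod 5) • dY :
        Module.End (ZMod 5) (Fn5 (5 ^ r) (5 ^ s))) =
        (op5 11 (-3) 3 (-4) - oB ^ 23 * oD ^ 1 * oA ^ 2) +
          (oB ^ 23 * oD ^ 1 * oA ^ 2 - 1 - (2 : ZMod 5) • dX - (3 : ZMod 5) • dY) := by abel
    rw [e, ring5]
    refine lw_add hl (lw_mono hl h7 (by norm_num)) (lw_add hl ?_ (lw_add hl (lw_add hl ?_ ?_) ?_))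
    · exact lw_mono hl (lw_mul hl (lw_mul hl cB bD (by norm_num : (0 : ℤ) + 4 = 4)) cA
        (by norm_num : (4 : ℤ) + 0 = 4)) (by norm_num)
    · exact lw_mul hl hB cA (by norm_num)
    · exact lw_mul hl hY hA (by norm_num)
    · exact lw_mul hl (lw_smul hl _ (lw_dY hl)) (lw_smul hl _ (lw_dX hl)) (by norm_num)
  · exact fun d F hF hd => even_step hn t2 d F hF hd
  · exact fun d F hF hd => odd_step hn t2 d F hF hd
  · intro i j hi hj
    have h1 := tβ _ _ ((hb r s).1 i j hi hj)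
    have h2 := Submodule.add_mem _ h1 (lead3 hl hn hb i j hi hj)
    rw [LinearMap.sub_apply, sub_add_sub_cancel] at h2
    exact h2
  · intro i j hi hj
    have h1 := tα _ _ ((hb r s).1 i j hi hj)
    have h2 := Submodule.add_mem _ h1 (lead hl hn hb i j hi hj)
    rw [LinearMap.sub_apply, sub_add_sub_cancel] at h2
    exact h2

end Pool.Agent.Helper53.TK
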